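import Pool.Agent.TH769.CD.Fin

set_option autoImplicit false

/-!
# A solution to Post's problem which is invariant under all computable changes of the oracle

`TLe` (Turing reducibility of sets, given by their characteristic sequences, from Mathlib's
`TuringReducible`) is defined in `Pool/Agent/Helper227/Defs.lean`; `WE X e` (the `e`-th set
computably enumerable relative to `X`) and `jump X` (the Turing jump of `X`) are defined in
`Pool/Agent/Helper227/RD/Jump.lean`; `chr S` (the characteristic sequence of `S`) is defined in
`Pool/Agent/H548R2/Post/Main.lean`.

For `P = ∅` the theorem says: there is an index `e` with `X <_T W_e^X <_T X'` for all `X`, and with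
`W_e^X ≡_T W_e^Y` for all `X`, `Y` whose symmetric difference is computable.  The computable sets
are not uniformly computable, so this does not follow from the theorem `PrimrecInvariant` of this
folder, which treats a uniformly computable sequence of sets (and the primitive recursive sets).

For `P` the set of the odd numbers it says that `W_e^(A ⊕ Z) ≡_T W_e^(B ⊕ Z)` whenever `A △ B` is
computable from `Z` (part 3 of `LocallyFiniteActions` treats the sets which are computable from `Z`
by reductions from a uniformly computable sequence of total reductions).

The proof is an infinite injury construction on a tree: the nodes guess which of the (partial)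
reductions are total, and the requirement of a node treats all translates of the oracle by the
sets given by the reductions guessed to be total in the same way.
-/

namespace Pool.Agent.Results.MP_57825d_lc.ComputableDifferences

open Pool.Agent.Helper227 Pool.Agent.H548R2.Post

/-- For every computable set `P` there is one index `e` such that `X <_T W_e^X <_T X'` for all `X`,
and `W_e^X ≡_T W_e^Y` for all `X`, `Y` which agree on `P` and whose symmetric difference is
computable from `X ∩ P`. -/
theorem result (P : ℕ → Bool) (hP : Computable P) : ∃ e : ℕ,
    (∀ X : ℕ → Bool, TLe X (chr (WE X e)) ∧ ¬ TLe (chr (WE X e)) X ∧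
      TLe (chr (WE X e)) (jump X) ∧ ¬ TLe (jump X) (chr (WE X e))) ∧
    ∀ X Y : ℕ → Bool, (∀ n, P n = true → X n = Y n) →
      TLe (fun n => xor (X n) (Y n)) (fun n => X n && P n) →
      TLe (chr (WE X e)) (chr (WE Y e)) ∧ TLe (chr (WE Y e)) (chr (WE X e)) :=
  Pool.Agent.TH769.CD.main_set P hP

end Pool.Agent.Results.MP_57825d_lc.ComputableDifferences
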