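import Pool.Agent.TH769.FB.Pri

set_option autoImplicit false

/-!
# Solutions to Post's problem which are invariant for one program in one direction and a list of
# total programs in the other direction

`TLe` (Turing reducibility of sets, given by their characteristic sequences, from Mathlib's
`TuringReducible`) is defined in `Pool/Agent/Helper227/Defs.lean`; `pre X n` (the initial segment
of length `n` of `X`) in `Pool/Agent/Helper227/Use.lean`; `WE X e` (the `e`-th set computably
enumerable relative to `X`) and `jump X` (the Turing jump) in
`Pool/Agent/Helper227/RD/Jump.lean`; `chr S` (the characteristic sequence of `S`) in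
`Pool/Agent/H548R2/Post/Main.lean`; `Via i X Y` (the program `i` reduces `Y` to `X`) in
`Pool/Agent/TH769/TP/Cod.lean`; `lab n X` (the sequence `0ⁿ 1 X`) in
`Pool/Agent/TH769/TP/Uni.lean`; `app σ X` (the sequence `X` after the word `σ`) in
`Pool/Agent/TH769/LH/Fin.lean`; `PrimFrom X Y` (`X n = δ (n, pre Y (u n))` for primitive recursive
`δ` and `u`) in `Pool/Agent/TH769/FB/Pri.lean`.

Part 1: let `i` be any program (a Turing functional, in general partial), and let `k 0, k 1, …` be
a computable list of programs which are total for all oracles. There is an index `e` with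
`X <_T W_e^X <_T X'` and `(W_e^X)' ≤_T X'` for all `X`, and with `W_e^X ≡_T W_e^Y` for all `X`,
`Y` such that `i` reduces `Y` to `X`, and `X` is obtained from `Y` by some `k c` or by some
primitive recursive functional.

Part 2 (all programs `i` at once): for each list `k` as above there is one index `e` such that the
operators `X ↦ W_e^{0ⁿ 1 X}` have these properties, for the program `i` with code `n`. So whenever
`Y ≤_T X`, and `X` is obtained from `Y` by a member of the list or by a primitive recursive
functional, there is an `n` with `W_e^{0ⁿ 1 X} ≡_T W_e^{0ⁿ 1 Y}`.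

Part 3 (an example for Part 1, the program `i` is the shift, and `k 0`, `k 1` put a digit in
front): there is an index `e` as in Part 1 with `W_e^X ≡_T W_e^Y` whenever `X` and `Y` have a
common tail (`X = σZ`, `Y = τZ` for a sequence `Z` and words `σ`, `τ` of any lengths).

The equivalence relations generated by these pairs `X`, `Y` are not given by computable actions of
groups. Each `X` has at most one successor `Y`, but each `Y` may have infinitely many predecessors,
so the classes are infinite trees with infinite branching; whether `X` has a successor is a `Π₂`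
condition. The equivalence relation is a limit inferior of finite equivalence relations, which are
found in the limit with the help of markers and roots on the forward orbits; the `m`-th
requirement treats the members of the `m`-th finite class in the same way.
-/

namespace Pool.Agent.Results.MP_57825d_lc.OneProgramManyBack

open Encodable Pool.Agent.Helper227 Pool.Agent.H548R2.Post Pool.Agent.TH769.TP
open Pool.Agent.TH769.LH (app)
open Pool.Agent.TH769.FB (PrimFrom)
open Nat.Partrec (Code)

theorem result :
    (∀ (i : Code) (k : ℕ → Code), Computable k →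
      (∀ (c : ℕ) (X : ℕ → Bool), ∃ Y, Via (k c) X Y) →
      ∃ e : ℕ,
        (∀ X : ℕ → Bool, TLe X (chr (WE X e)) ∧ ¬ TLe (chr (WE X e)) X ∧
          TLe (chr (WE X e)) (jump X) ∧ ¬ TLe (jump X) (chr (WE X e)) ∧
          TLe (jump (chr (WE X e))) (jump X)) ∧
        ∀ X Y : ℕ → Bool, Via i X Y → ((∃ c, Via (k c) Y X) ∨ PrimFrom X Y) →
          TLe (chr (WE X e)) (chr (WE Y e)) ∧ TLe (chr (WE Y e)) (chr (WE X e))) ∧
    (∀ k : ℕ → Code, Computable k →
      (∀ (c : ℕ) (X : ℕ → Bool), ∃ Y, Via (k c) X Y) →
      ∃ e : ℕ,
        (∀ (n : ℕ) (X : ℕ → Bool), TLe X (chr (WE (lab n X) e)) ∧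
          ¬ TLe (chr (WE (lab n X) e)) X ∧ TLe (chr (WE (lab n X) e)) (jump X) ∧
          ¬ TLe (jump X) (chr (WE (lab n X) e)) ∧
          TLe (jump (chr (WE (lab n X) e))) (jump X)) ∧
        ∀ (i : Code) (X Y : ℕ → Bool), Via i X Y → ((∃ c, Via (k c) Y X) ∨ PrimFrom X Y) →
          TLe (chr (WE (lab (encode i) X) e)) (chr (WE (lab (encode i) Y) e)) ∧
          TLe (chr (WE (lab (encode i) Y) e)) (chr (WE (lab (encode i) X) e))) ∧
    ∃ e : ℕ,
      (∀ X : ℕ → Bool, TLe X (chr (WE X e)) ∧ ¬ TLe (chr (WE X e)) X ∧
        TLe (chr (WE X e)) (jump X) ∧ ¬ TLe (jump X) (chr (WE X e)) ∧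
        TLe (jump (chr (WE X e))) (jump X)) ∧
      ∀ (σ τ : List Bool) (X : ℕ → Bool),
        TLe (chr (WE (app σ X) e)) (chr (WE (app τ X) e)) :=
  ⟨Pool.Agent.TH769.FB.final_one, Pool.Agent.TH769.FB.final_all, Pool.Agent.TH769.FB.main_tail⟩

end Pool.Agent.Results.MP_57825d_lc.OneProgramManyBack
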