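import Pool.Agent.TH769.TP.Uni

set_option autoImplicit false

/-!
# Solutions to Post's problem which are invariant for one pair of Turing reductions

`TLe` (Turing reducibility of sets, given by their characteristic sequences, from Mathlib's
`TuringReducible`) is defined in `Pool/Agent/Helper227/Defs.lean`; `pre X n` (the initial segment
of length `n` of `X`) in `Pool/Agent/Helper227/Use.lean`; `WE X e` (the `e`-th set computably
enumerable relative to `X`) and `jump X` (the Turing jump of `X`) in
`Pool/Agent/Helper227/RD/Jump.lean`; `chr S` (the characteristic sequence of `S`) in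
`Pool/Agent/H548R2/Post/Main.lean`. `Via i X Y` (in `Pool/Agent/TH769/TP/Cod.lean`) says that the
program `i` reduces `Y` to `X`: on the inputs `(σ, n)`, `σ` an initial segment of `X`, the program
gives the output `Y n` (0 or 1) for at least one `σ`, and it gives no other output. Part 3 of the
theorem says that `Y ≤_T X` if and only if `Via i X Y` for some `i`. `lab n X` (in
`Pool/Agent/TH769/TP/Uni.lean`) is the sequence `0ⁿ 1 X`.

Part 1: for each pair of programs `i`, `j` there is an index `e` with `X <_T W_e^X <_T X'` and
`(W_e^X)' ≤_T X'` for all `X`, and with `W_e^X ≡_T W_e^Y` for all `X`, `Y` such that `i` reduces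
`Y` to `X` and `j` reduces `X` to `Y`. (The theorem `SinglePair` of this folder shows that, for the
equivalence `W_e^X ≡_T W_e^Y` for all these `X`, `Y`, one cannot in general expect finitely many
programs. There the pair depends on `e`, here `e` depends on the pair.)

Part 2: there is one index `e` such that the operators `X ↦ W_e^{0ⁿ 1 X}` have these properties,
for each pair `(i, j)` with code `n`. So `X <_T W_e^{0ⁿ 1 X} <_T X'` for all `X` and `n`, and
whenever `X ≡_T Y` there is an `n` with `W_e^{0ⁿ 1 X} ≡_T W_e^{0ⁿ 1 Y}`; the number `n` depends
only on the programs for the reductions between `X` and `Y`.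

The sets `X`, `Y` as in part 1 form a graph in which each `X` has at most one successor and at most
one predecessor, so its components are chains or cycles, but the functionals are partial,
membership in the graph is a `Π₂` condition, and a chain can end on both sides. A construction for
the two-sided shift is applied to the sequences, indexed by the integers, of the members of a
chain; whether the chain goes on to the left and to the right is guessed along the enumeration.
-/

namespace Pool.Agent.Results.MP_57825d_lc.SingleTuringPair

open Encodable Pool.Agent.Helper227 Pool.Agent.H548R2.Post Pool.Agent.TH769.TP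
open Nat.Partrec (Code)

theorem result :
    (∀ i j : Code, ∃ e : ℕ,
      (∀ X : ℕ → Bool, TLe X (chr (WE X e)) ∧ ¬ TLe (chr (WE X e)) X ∧
        TLe (chr (WE X e)) (jump X) ∧ ¬ TLe (jump X) (chr (WE X e)) ∧
        TLe (jump (chr (WE X e))) (jump X)) ∧
      ∀ X Y : ℕ → Bool, Via i X Y → Via j Y X →
        TLe (chr (WE X e)) (chr (WE Y e)) ∧ TLe (chr (WE Y e)) (chr (WE X e))) ∧
    (∃ e : ℕ,
      (∀ (n : ℕ) (X : ℕ → Bool), TLe X (chr (WE (lab n X) e)) ∧
        ¬ TLe (chr (WE (lab n X) e)) X ∧ TLe (chr (WE (lab n X) e)) (jump X) ∧
        ¬ TLe (jump X) (chr (WE (lab n X) e)) ∧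
        TLe (jump (chr (WE (lab n X) e))) (jump X)) ∧
      ∀ (i j : Code) (X Y : ℕ → Bool), Via i X Y → Via j Y X →
        TLe (chr (WE (lab (encode (i, j)) X) e)) (chr (WE (lab (encode (i, j)) Y) e)) ∧
        TLe (chr (WE (lab (encode (i, j)) Y) e)) (chr (WE (lab (encode (i, j)) X) e))) ∧
    ∀ X Y : ℕ → Bool, TLe Y X ↔ ∃ i : Code, Via i X Y :=
  ⟨main, main_lab, via_iff⟩

end Pool.Agent.Results.MP_57825d_lc.SingleTuringPair
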