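import Pool.Agent.TH769.TP.Two

set_option autoImplicit false

/-!
# Two pairs of programs are as hard as all Turing equivalences

`TLe` (Turing reducibility of sets, given by their characteristic sequences, from Mathlib's
`TuringReducible`) and `join` are defined in `Pool/Agent/Helper227/Defs.lean`; `WE X e` (the `e`-th
set computably enumerable relative to `X`) and `jump X` (the Turing jump) in
`Pool/Agent/Helper227/RD/Jump.lean`; `chr S` (the characteristic sequence of `S`) in
`Pool/Agent/H548R2/Post/Main.lean`; `Via i X Y` (the program `i` reduces `Y` to `X`) in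
`Pool/Agent/TH769/TP/Cod.lean`; `Sol e` (`X <_T W_e^X <_T X'` for all `X`), `Same e X Y`
(`W_e^X ≡_T W_e^Y`), `Inv e` (`W_e^X ≡_T W_e^Y` whenever `X ≡_T Y`) and `zer X` (the sequence `0X`)
in `Pool/Agent/TH769/TP/Two.lean`.

So `∃ e, Sol e ∧ Inv e` says that the question has a positive answer. By the theorem
`SingleTuringPair` of this folder, for each single pair `i`, `j` of programs there is a solution to
Post's problem with `W_e^X ≡_T W_e^Y` for all `X`, `Y` such that `i` reduces `Y` to `X` and `j`
reduces `X` to `Y`. Part 1 below says that for two pairs this is the whole problem: there are a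
pair `(i, j)` and a pair `(k, l)` such that a solution which is invariant for both pairs exists if
and only if the question has a positive answer. The second pair is `X ↦ 0X`, `0X ↦ X`; the first
one is universal, its domain consists of sequences with a label.

Part 2 is a form with natural equivalences: the question has a positive answer if and only if there
is a solution with `W_e^(X ⊕ Y) ≡_T W_e^(Y ⊕ X)` for all `X`, `Y`, and with
`W_e^(X ⊕ Y) ≡_T W_e^(X ⊕ Z)` for all `X` and all `Y, Z ≤_T X`. Again, each of the two conditions
can be satisfied alone: the first one by `LocallyFiniteActions` (an action of the group with two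
elements), the second one by `ComputableDifferences`.
-/

namespace Pool.Agent.Results.MP_57825d_lc.TwoPairs

open Pool.Agent.Helper227 Pool.Agent.TH769.TP
open Nat.Partrec (Code)

theorem result :
    (∃ i j k l : Code, (∀ X : ℕ → Bool, Via k X (zer X) ∧ Via l (zer X) X) ∧
      ((∃ e : ℕ, Sol e ∧ Inv e) ↔
        ∃ e : ℕ, Sol e ∧ (∀ X Y : ℕ → Bool, Via i X Y → Via j Y X → Same e X Y) ∧
          ∀ X Y : ℕ → Bool, Via k X Y → Via l Y X → Same e X Y)) ∧
    ((∃ e : ℕ, Sol e ∧ Inv e) ↔
      ∃ e : ℕ, Sol e ∧ (∀ X Y : ℕ → Bool, Same e (join X Y) (join Y X)) ∧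
        ∀ X Y Z : ℕ → Bool, TLe Y X → TLe Z X → Same e (join X Y) (join X Z)) :=
  ⟨two_pairs, swap_form⟩

end Pool.Agent.Results.MP_57825d_lc.TwoPairs
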